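import Mathlib
import Pool.Agent.H977R3.WN.Crit
import Pool.Agent.H204R3.CM.Nondeg
import Pool.Agent.Y137.MV.Defs

/-!
# Maximal angle rank from the absence of relations between slope functions
-/

set_option autoImplicit false
set_option linter.unusedSectionVars false

namespace Pool.Agent.V8H71.OD

open NumberField Module Pool.Agent.H204R3.CM Pool.Agent.H977R3.WN Pool.Agent.H977R3.CM
  Pool.Agent.Y137.MV

/-- The base `p` logarithm of the `p`-adic absolute value. -/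
noncomputable def lgp (p : ℕ) [Fact p.Prime] (x : PadicAlgCl p) : ℝ := Real.logb p ‖x‖

theorem lgp_zpow {p : ℕ} [Fact p.Prime] (x : PadicAlgCl p) (m : ℤ) :
    lgp p (x ^ m) = m * lgp p x := by
  unfold lgp
  rw [norm_zpow, Real.logb, Real.log_zpow, Real.logb]
  ring

theorem lgp_prod {p : ℕ} [Fact p.Prime] {Y : Type*} (s : Finset Y) (w : Y → PadicAlgCl p)
    (h : ∀ y ∈ s, w y ≠ 0) : lgp p (∏ y ∈ s, w y) = ∑ y ∈ s, lgp p (w y) := by
  unfold lgp
  rw [norm_prod, Real.logb_prod _ _ (fun y hy => norm_ne_zero_iff.2 (h y hy))]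

theorem lgp_q (p : ℕ) [Fact p.Prime] (a : ℕ) : lgp p ((p : PadicAlgCl p) ^ a) = -a := by
  have h1 : (p : PadicAlgCl p) = ((p : ℚ_[p]) : PadicAlgCl p) := by
    rw [map_natCast]
  have hp1 : (1 : ℝ) < p := by exact_mod_cast (Fact.out : p.Prime).one_lt
  unfold lgp
  rw [norm_pow, h1, PadicAlgCl.norm_extends, Padic.norm_p, Real.logb_pow, Real.logb_inv,
    Real.logb_self_eq_one hp1]
  ring

/-- The slope function is odd. -/
theorem anti_of_weil {p : ℕ} [Fact p.Prime] {a : ℕ} {K : Type} [Field K] [NumberField K]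
    [IsCMField K] {π : K} (hw : π * IsCMField.complexConj K π = (p : K) ^ a)
    {κ : ℚ} (hκ : κ ≠ 0) {u : (K →+* PadicAlgCl p) → ℤ}
    (hu : ∀ τ : K →+* PadicAlgCl p, 2 * (- Real.logb p ‖τ π‖) - a = (κ : ℝ) * u τ)
    (τ : K →+* PadicAlgCl p) : u (cbar τ) = - u τ := by
  have hπ0 : π ≠ 0 := by
    intro h0
    rw [h0, zero_mul] at hw
    exact pow_ne_zero a (Nat.cast_ne_zero.2 (Fact.out : p.Prime).ne_zero) hw.symm
  have h1 := hu τ
  have h2 := hu (cbar τ)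
  have h3 : τ π ≠ 0 := (_root_.map_ne_zero τ).2 hπ0
  have h4 : lgp p (τ π) + lgp p (cbar τ π) = -a := by
    rw [← lgp_q p a]
    have h5 : cbar τ π ≠ 0 := (_root_.map_ne_zero _).2 hπ0
    unfold lgp
    rw [← Real.logb_mul (norm_ne_zero_iff.2 h3) (norm_ne_zero_iff.2 h5), ← norm_mul, cbar_apply,
      ← map_mul, hw, map_pow, map_natCast]
  unfold lgp at h4
  have h5 : (κ : ℝ) * ((u (cbar τ) : ℝ) + u τ) = 0 := by
    rw [mul_add, ← h1, ← h2]
    linarith
  have h6 : (κ : ℝ) ≠ 0 := by exact_mod_cast hκ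
  have h7 := (mul_eq_zero.1 h5).resolve_left h6
  have h8 : u (cbar τ) + u τ = 0 := by exact_mod_cast h7
  omega

/-- If the slope functions satisfy no relations, the angle rank is maximal. -/
theorem angle_of_free {p : ℕ} [Fact p.Prime] {a : ℕ} {I : Type} [Fintype I]
    {K : I → Type} [∀ i, Field (K i)] [∀ i, NumberField (K i)] [∀ i, IsCMField (K i)]
    {π : ∀ i, K i} (hw : ∀ i, π i * IsCMField.complexConj (K i) (π i) = (p : K i) ^ a)
    (κ : I → ℚ) (hκ : ∀ i, κ i ≠ 0) (u : ∀ i, (K i →+* PadicAlgCl p) → ℤ)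
    (hu : ∀ i, ∀ τ : K i →+* PadicAlgCl p,
      2 * (- Real.logb p ‖τ (π i)‖) - a = (κ i : ℝ) * u i τ)
    (hfree : ∀ {L : Type} [Field L] [NumberField L] [IsGalois ℚ L] (j : L →+* ℂ)
      (_ : ∀ i, ∀ ψ : K i →+* ℂ, ∃ φ : K i →+* L, j.comp φ = ψ) (jp : L →+* PadicAlgCl p),
      Free (F := K) (L := L) (fun i φ => u i (jp.comp φ))) :
    MaximalAngleRank (p ^ a) π := by
  classical
  obtain ⟨L, _, _, j, hj⟩ := exists_galois K
  have hL : Algebra.IsAlgebraic ℚ L := inferInstance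
  obtain ⟨jp⟩ : Nonempty (L →+* PadicAlgCl p) :=
    ⟨((IsAlgClosed.lift : L →ₐ[ℚ] PadicAlgCl p) : L →+* PadicAlgCl p)⟩
  have hπ0 : ∀ i, π i ≠ 0 := by
    intro i h0
    have h1 := hw i
    rw [h0, zero_mul] at h1
    exact pow_ne_zero a (Nat.cast_ne_zero.2 (Fact.out : p.Prime).ne_zero) h1.symm
  intro r n hrel
  -- the antisymmetry of the slopes
  have hanti : ∀ i (τ : K i →+* PadicAlgCl p), u i (cbar τ) = - u i τ := fun i τ =>
    anti_of_weil (hw i) (hκ i) (hu i) τ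
  -- transfer the relation to `L`
  let EQ : ∀ i, (K i →+* L) ≃ (K i →+* ℂ) := fun i => Equiv.ofBijective (fun φ => j.comp φ)
    ⟨fun φ φ' h => RingHom.ext fun x => j.injective (RingHom.congr_fun h x), hj i⟩
  let Y : Type := Σ i, (K i →+* L)
  let m : Y → ℤ := fun y => n ⟨y.1, j.comp y.2⟩
  have hrelL : ∏ y : Y, (y.2 (π y.1)) ^ m y = ((p : L) ^ a) ^ r := by
    apply j.injective
    rw [map_prod, map_zpow₀, map_pow, map_natCast]
    have h1 : (((p ^ a : ℕ) : ℂ)) ^ r = ((p : ℂ) ^ a) ^ r := by push_cast; rfl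
    rw [← h1, ← hrel]
    refine Fintype.prod_equiv (Equiv.sigmaCongrRight EQ) _ _ fun y => ?_
    rw [map_zpow₀]
    rfl
  -- valuations
  have hS : ∀ g : L ≃ₐ[ℚ] L, ∑ y : Y, (m y : ℝ) * ((κ y.1 : ℝ) * u y.1 (jp.comp (g • y.2))) =
      2 * (r * a) - a * ∑ y : Y, (m y : ℝ) := by
    intro g
    have h1 := congrArg (fun x => lgp p (jp (g x))) hrelL
    simp only [map_prod, map_zpow₀, map_pow, map_natCast] at h1
    rw [lgp_prod _ _ (fun y _ => zpow_ne_zero _ ((_root_.map_ne_zero jp).2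
      ((_root_.map_ne_zero g).2 ((_root_.map_ne_zero _).2 (hπ0 _))))), lgp_zpow, lgp_q] at h1
    have h2 : ∀ y : Y, (m y : ℝ) * ((κ y.1 : ℝ) * u y.1 (jp.comp (g • y.2))) =
        -2 * lgp p ((jp (g (y.2 (π y.1)))) ^ m y) - a * (m y : ℝ) := by
      intro y
      rw [← hu, lgp_zpow]
      have h3 : (jp.comp (g • y.2)) (π y.1) = jp (g (y.2 (π y.1))) := rfl
      rw [h3]
      unfold lgp
      ring
    rw [Finset.sum_congr rfl (fun y _ => h2 y), Finset.sum_sub_distrib, ← Finset.mul_sum,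
      ← Finset.mul_sum, h1]
    ring
  have hcb : ∀ (g : L ≃ₐ[ℚ] L) (i : I) (φ : K i →+* L), jp.comp (g • cbar φ) =
      cbar (jp.comp (g • φ)) := fun g i φ => rfl
  -- the right side vanishes
  obtain ⟨c, hc⟩ := exists_gal j (starRingAut : ℂ ≃+* ℂ)
  have hcφ : ∀ (i : I) (φ : K i →+* L), c • φ = cbar φ := by
    intro i φ
    refine RingHom.ext fun x => j.injective ?_
    have h1 := hc (φ x)
    have h2 := RingHom.congr_fun (comp_cbar j φ) x
    rw [ComplexEmbedding.conjugate_coe_eq] at h2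
    exact h1.symm.trans h2.symm
  have hC0 : 2 * ((r : ℝ) * a) - a * ∑ y : Y, (m y : ℝ) = 0 := by
    have h1 := hS 1
    have h2 := hS (1 * c)
    have h3 : ∀ y : Y, (m y : ℝ) * ((κ y.1 : ℝ) * u y.1 (jp.comp ((1 * c : L ≃ₐ[ℚ] L) • y.2))) =
        -((m y : ℝ) * ((κ y.1 : ℝ) * u y.1 (jp.comp ((1 : L ≃ₐ[ℚ] L) • y.2)))) := by
      intro y
      rw [mul_smul, hcφ, hcb, hanti]
      push_cast
      ring
    rw [Finset.sum_congr rfl (fun y _ => h3 y), Finset.sum_neg_distrib, h1] at h2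
    linarith
  -- clear denominators
  let D : ℕ := ∏ i, (κ i).den
  have hD0 : (D : ℚ) ≠ 0 := by
    have h1 : D ≠ 0 := Finset.prod_ne_zero_iff.2 fun i _ => (κ i).den_nz
    exact_mod_cast h1
  have hD : ∀ i, ∃ m : ℤ, (m : ℚ) = κ i * D := by
    intro i
    obtain ⟨r, hr⟩ := Finset.dvd_prod_of_mem (fun i => (κ i).den) (Finset.mem_univ i)
    refine ⟨(κ i).num * r, ?_⟩
    have h1 : (D : ℚ) = (κ i).den * r := by
      have h2 : D = (κ i).den * r := hr
      exact_mod_cast h2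
    rw [h1, ← mul_assoc, Rat.mul_den_eq_num]
    push_cast
    rfl
  choose d hd using hD
  have hd0 : ∀ i, d i ≠ 0 := by
    intro i h0
    have h1 := hd i
    rw [h0, Int.cast_zero] at h1
    exact mul_ne_zero (hκ i) hD0 h1.symm
  let e : ∀ i, (K i →+* L) → ℤ := fun i φ => d i * (m ⟨i, φ⟩ - m ⟨i, cbar φ⟩)
  have hzero := hfree j hj jp e (fun i φ => by
    simp only [e, cbar_cbar]
    ring) (fun g => by
    have h1 : ((∑ i, ∑ φ : (K i →+* L), e i φ * u i (jp.comp (g • φ)) : ℤ) : ℝ) =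
        D * ((∑ y : Y, (m y : ℝ) * ((κ y.1 : ℝ) * u y.1 (jp.comp (g • y.2)))) -
          ∑ y : Y, (m ⟨y.1, cbar y.2⟩ : ℝ) * ((κ y.1 : ℝ) * u y.1 (jp.comp (g • y.2)))) := by
      rw [← Finset.sum_sub_distrib, Finset.mul_sum,
        ← Fintype.sum_sigma (fun y : Y => e y.1 y.2 * u y.1 (jp.comp (g • y.2)))]
      push_cast
      refine Finset.sum_congr rfl fun y _ => ?_
      simp only [e]
      push_cast
      have h2 : ((d y.1 : ℤ) : ℝ) = (κ y.1 : ℝ) * D := by exact_mod_cast congrArg (fun x : ℚ => (x : ℝ)) (hd y.1)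
      rw [h2]
      ring
    have h3 : ∑ y : Y, (m ⟨y.1, cbar y.2⟩ : ℝ) * ((κ y.1 : ℝ) * u y.1 (jp.comp (g • y.2))) =
        - ∑ y : Y, (m y : ℝ) * ((κ y.1 : ℝ) * u y.1 (jp.comp (g • y.2))) := by
      rw [← Finset.sum_neg_distrib]
      let E : Y ≃ Y :=
        { toFun := fun y => ⟨y.1, cbar y.2⟩
          invFun := fun y => ⟨y.1, cbar y.2⟩
          left_inv := by
            rintro ⟨i, φ⟩
            simp only [cbar_cbar]
          right_inv := by
            rintro ⟨i, φ⟩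
            simp only [cbar_cbar] }
      refine Fintype.sum_equiv E _ _ fun y => ?_
      change (m ⟨y.1, cbar y.2⟩ : ℝ) * ((κ y.1 : ℝ) * u y.1 (jp.comp (g • y.2))) =
        -((m ⟨y.1, cbar y.2⟩ : ℝ) * ((κ y.1 : ℝ) * u y.1 (jp.comp (g • cbar y.2))))
      rw [hcb, hanti]
      push_cast
      ring
    rw [h3, hS, hC0] at h1
    have h4 : ((∑ i, ∑ φ : (K i →+* L), e i φ * u i (jp.comp (g • φ)) : ℤ) : ℝ) = 0 := by
      rw [h1]; ring
    exact_mod_cast h4)
  intro i φ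
  obtain ⟨ψ, rfl⟩ := hj i φ
  have h1 := hzero i ψ
  have h2 := (mul_eq_zero.1 h1).resolve_left (hd0 i)
  have h3 : m ⟨i, ψ⟩ = m ⟨i, cbar ψ⟩ := by linarith
  have h4 : m ⟨i, cbar ψ⟩ = n ⟨i, ComplexEmbedding.conjugate (j.comp ψ)⟩ := by
    change n ⟨i, j.comp (cbar ψ)⟩ = _
    rw [comp_cbar]
  rw [← h4, ← h3]

end Pool.Agent.V8H71.OD
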