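import Mathlib
import Pool.Agent.H925R2.Core
import Pool.Agent.H977R3.CM.Orbit

/-!
# Blocks and orbits of odd prime power length

A finite group `G` acts transitively on a finite set `X` with a fixed point free involution `bar`;
`f : X → Y` is equivariant and invariant under `bar`, and one of its fibres (a block) has
`2 l ^ k` elements, `l` an odd prime. If a subgroup has an orbit of `l ^ k` elements in the block
and the odd integral function `n` is divisible by `l` outside of the block and has a sum prime to `l`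
over the orbit then `n` satisfies no relation between its translates.
-/

set_option autoImplicit false
set_option linter.unusedSectionVars false

namespace Pool.Agent.V8H71.OD

open MulAction Finset

section Core

variable {Q B : Type*} [Group Q] [Finite Q] [MulAction Q B] [Fintype B] [DecidableEq B]

/-- If an `l`-group is transitive on the half `Φ` of `B`, and a nonzero odd function `u` modulo `l`
has all its translates orthogonal to the odd function `n`, then the sum of `n` over `Φ` is zero. -/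
theorem coreQ (l : ℕ) [Fact l.Prime] (hl : l ≠ 2) (hQ : IsPGroup l Q) (bar : B → B)
    (hbb : ∀ x, bar (bar x) = x) (hbQ : ∀ (g : Q) x, bar (g • x) = g • bar x)
    (Φ : Finset B) (hΦne : Φ.Nonempty) (hΦ : ∀ x, x ∈ Φ ↔ bar x ∉ Φ)
    (htr : ∀ x ∈ Φ, ∀ y ∈ Φ, ∃ g : Q, g • x = y)
    (n : B → ZMod l) (hn : ∀ x, n (bar x) = - n x)
    (u : B → ZMod l) (hu : ∀ x, u (bar x) = - u x) (x₀ : B) (hu0 : u x₀ ≠ 0)
    (hort : ∀ h : Q, ∑ x, u (h • x) * n x = 0) : ∑ x ∈ Φ, n x = 0 := by
  classical
  have hsplit : ∀ w : B → ZMod l, (∀ x, w (bar x) = w x) → ∑ x, w x = 2 * ∑ x ∈ Φ, w x := by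
    intro w hw
    rw [← Finset.sum_add_sum_compl Φ w, two_mul]
    congr 1
    apply Finset.sum_nbij' (i := bar) (j := bar)
    · intro x hx
      rw [mem_compl] at hx
      rw [hΦ, hbb]
      exact hx
    · intro x hx
      rw [mem_compl]
      rwa [← hΦ]
    · intro x _; exact hbb x
    · intro x _; exact hbb x
    · intro x _; exact (hw x).symm
  let T : Submodule (ZMod l) (B → ZMod l) :=
    { carrier := {v | (∀ x, v (bar x) = - v x) ∧ ∀ h : Q, ∑ x, v (h • x) * n x = 0}
      zero_mem' := by simp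
      add_mem' := by
        rintro v w ⟨h1, h2⟩ ⟨h3, h4⟩
        refine ⟨fun x => ?_, fun h => ?_⟩
        · simp only [Pi.add_apply, h1, h3]; ring
        · simp only [Pi.add_apply, add_mul, Finset.sum_add_distrib, h2 h, h4 h, add_zero]
      smul_mem' := by
        rintro c v ⟨h1, h2⟩
        refine ⟨fun x => ?_, fun h => ?_⟩
        · simp only [Pi.smul_apply, smul_eq_mul, h1]; ring
        · have : ∑ x, (c • v) (h • x) * n x = c * ∑ x, v (h • x) * n x := by
            rw [Finset.mul_sum]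
            apply Finset.sum_congr rfl
            intro x _
            simp only [Pi.smul_apply, smul_eq_mul]; ring
          rw [this, h2 h, mul_zero] }
  have huT : u ∈ T := ⟨hu, fun h => hort h⟩
  let act : MulAction Q T :=
    { smul := fun g v => ⟨fun x => v.1 (g⁻¹ • x), by
        refine ⟨fun x => ?_, fun h => ?_⟩
        · show v.1 (g⁻¹ • bar x) = - v.1 (g⁻¹ • x)
          rw [← hbQ]; exact v.2.1 _
        · have h1 := v.2.2 (g⁻¹ * h)
          simpa only [mul_smul] using h1⟩
      one_smul := fun v => by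
        apply Subtype.ext
        funext x
        show v.1 ((1 : Q)⁻¹ • x) = v.1 x
        simp
      mul_smul := fun a b v => by
        apply Subtype.ext
        funext x
        show v.1 ((a * b)⁻¹ • x) = v.1 (b⁻¹ • (a⁻¹ • x))
        rw [mul_inv_rev, ← mul_smul] }
  have hsm : ∀ (g : Q) (v : T) (x : B), (g • v).1 x = v.1 (g⁻¹ • x) := fun g v x => rfl
  have hfin : Finite T := inferInstance
  have hTcard : l ∣ Nat.card T := by
    have hTne : Nontrivial T := by
      refine ⟨⟨⟨u, huT⟩, 0, ?_⟩⟩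
      intro h
      apply hu0
      have h1 := congrArg (fun v : T => v.1 x₀) h
      simpa using h1
    have h1 : Nat.card T = l ^ Module.finrank (ZMod l) T := by
      rw [Module.natCard_eq_pow_finrank (K := ZMod l), Nat.card_zmod]
    rw [h1]
    apply dvd_pow_self
    exact (Module.finrank_pos (R := ZMod l) (M := T)).ne'
  have h0fix : (0 : T) ∈ fixedPoints Q T := by
    intro g
    apply Subtype.ext
    funext x
    rfl
  obtain ⟨b, hb, hb0⟩ := hQ.exists_fixed_point_of_prime_dvd_card_of_fixed_point T hTcard h0fix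
  have hbinv : ∀ (g : Q) x, b.1 (g • x) = b.1 x := by
    intro g x
    have h1 := hb g⁻¹
    have h2 := congrArg (fun v : T => v.1 x) h1
    simp only [hsm] at h2
    simpa using h2
  obtain ⟨x₁, hx₁⟩ := hΦne
  have hbc : ∀ x ∈ Φ, b.1 x = b.1 x₁ := by
    intro x hx
    obtain ⟨g, rfl⟩ := htr x₁ hx₁ x hx
    exact hbinv g x₁
  have hc0 : b.1 x₁ ≠ 0 := by
    intro hc
    apply hb0
    symm
    apply Subtype.ext
    funext x
    show b.1 x = 0
    by_cases hx : x ∈ Φ
    · rw [hbc x hx, hc]
    · have h1 : bar x ∈ Φ := by rw [hΦ, hbb]; exact hx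
      have h2 := b.2.1 (bar x)
      rw [hbb, hbc _ h1, hc, neg_zero] at h2
      exact h2
  have h1 := b.2.2 1
  simp only [one_smul] at h1
  rw [hsplit (fun x => b.1 x * n x) (by
    intro x
    show b.1 (bar x) * n (bar x) = _
    rw [b.2.1, hn]; ring)] at h1
  have h2 : ∑ x ∈ Φ, b.1 x * n x = b.1 x₁ * ∑ x ∈ Φ, n x := by
    rw [Finset.mul_sum]
    apply Finset.sum_congr rfl
    intro x hx
    rw [hbc x hx]
  rw [h2] at h1
  have h2ne : (2 : ZMod l) ≠ 0 := by
    intro h
    have h3 : ((2 : ℕ) : ZMod l) = 0 := by exact_mod_cast h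
    rw [ZMod.natCast_eq_zero_iff] at h3
    exact hl ((Nat.prime_dvd_prime_iff_eq Fact.out Nat.prime_two).1 h3)
  rcases mul_eq_zero.1 h1 with h | h
  · exact absurd h h2ne
  · rcases mul_eq_zero.1 h with h | h
    · exact absurd h hc0
    · exact h

end Core

section Half

variable {G X Y : Type*} [Group G] [MulAction G X] [Fintype X] [DecidableEq X]

/-- An orbit of half the (odd) length of a block contains one element of each pair. -/
theorem half_of_orbit (bar : X → X) (hbb : ∀ x, bar (bar x) = x) (hbf : ∀ x, bar x ≠ x)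
    (hbG : ∀ (g : G) x, bar (g • x) = g • bar x) (B : Finset X) (hBb : ∀ x ∈ B, bar x ∈ B)
    (H : Subgroup G) (O : Finset X) (hOB : O ⊆ B) (htr : ∀ x ∈ O, ∀ y ∈ O, ∃ g ∈ H, g • x = y)
    (hst : ∀ g ∈ H, ∀ x ∈ O, g • x ∈ O) (hodd : Odd O.card) (hcard : B.card = 2 * O.card) :
    ∀ x ∈ B, (x ∈ O ↔ bar x ∉ O) := by
  classical
  have hbar : ∀ x ∈ O, bar x ∉ O := by
    intro x hx hbx
    rw [← Nat.not_even_iff_odd] at hodd
    apply hodd
    refine Pool.Agent.H977R3.CM.even_of_invol hbb hbf O ?_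
    intro y hy
    obtain ⟨g, hg, rfl⟩ := htr x hx y hy
    rw [hbG]
    exact hst g hg _ hbx
  intro x hxB
  refine ⟨hbar x, fun hx => ?_⟩
  by_contra hx'
  have hinj : Function.Injective bar := fun a b h => by rw [← hbb a, h, hbb]
  have hdis : Disjoint O (O.image bar) := by
    rw [Finset.disjoint_left]
    intro y hy hy'
    obtain ⟨w, hw, rfl⟩ := Finset.mem_image.1 hy'
    exact hbar w hw hy
  have hxn : x ∉ O ∪ O.image bar := by
    rw [Finset.mem_union, not_or]
    refine ⟨hx', ?_⟩
    intro h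
    obtain ⟨w, hw, hwx⟩ := Finset.mem_image.1 h
    apply hx
    rw [← hwx, hbb]
    exact hw
  have hsub : O ∪ O.image bar ⊆ B.erase x := by
    intro y hy
    rw [Finset.mem_erase]
    refine ⟨fun h => hxn (h ▸ hy), ?_⟩
    rcases Finset.mem_union.1 hy with h | h
    · exact hOB h
    · obtain ⟨w, hw, rfl⟩ := Finset.mem_image.1 h
      exact hBb w (hOB hw)
  have hle := Finset.card_le_card hsub
  rw [Finset.card_union_of_disjoint hdis, Finset.card_image_of_injective _ hinj,
    Finset.card_erase_of_mem hxB, hcard] at hle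
  have hpos : 0 < B.card := Finset.card_pos.2 ⟨x, hxB⟩
  omega

end Half

section Main

variable {G X Y : Type*} [Group G] [Finite G] [MulAction G X] [Fintype X] [DecidableEq X]
  [MulAction G Y] [DecidableEq Y]

/-- The values of an odd function `z` which is orthogonal to all translates of `n` are divisible
by `l`. -/
theorem dvd_block [IsPretransitive G X] (l : ℕ) [Fact l.Prime] (hl : l ≠ 2) (bar : X → X)
    (hbb : ∀ x, bar (bar x) = x) (hbf : ∀ x, bar x ≠ x)
    (hbG : ∀ (g : G) x, bar (g • x) = g • bar x)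
    (f : X → Y) (hf : ∀ (g : G) x, f (g • x) = g • f x) (hfb : ∀ x, f (bar x) = f x)
    (y₀ : Y) (k : ℕ) (hcard : (univ.filter (fun x => f x = y₀)).card = 2 * l ^ k)
    (H : Subgroup G) (x₀ : X) (O : Finset X) (hO : ∀ x, x ∈ O ↔ x ∈ orbit H x₀)
    (hOy : ∀ x ∈ O, f x = y₀) (hOc : O.card = l ^ k)
    (n : X → ℤ) (hnb : ∀ x, n (bar x) = - n x)
    (hout : ∀ x, f x ≠ y₀ → (l : ℤ) ∣ n x) (hin : ¬ (l : ℤ) ∣ ∑ x ∈ O, n x)
    (z : X → ℤ) (hzb : ∀ x, z (bar x) = - z x)
    (hz : ∀ g : G, ∑ x, z x * n (g • x) = 0) (x₁ : X) : (l : ℤ) ∣ z x₁ := by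
  classical
  by_contra hx₁
  let B := {x // f x = y₀}
  have hx₀O : x₀ ∈ O := (hO x₀).2 (mem_orbit_self x₀)
  have hx₀ : f x₀ = y₀ := hOy x₀ hx₀O
  have hHy : ∀ h : H, h.1 • y₀ = y₀ := by
    intro h
    have h1 := hOy (h.1 • x₀) ((hO _).2 ⟨h, rfl⟩)
    rw [hf, hx₀] at h1
    exact h1
  let actB : MulAction H B :=
    { smul := fun h x => ⟨h.1 • x.1, by rw [hf, x.2]; exact hHy h⟩
      one_smul := fun x => Subtype.ext (one_smul G x.1)
      mul_smul := fun a b x => Subtype.ext (mul_smul a.1 b.1 x.1) }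
  have hsm : ∀ (h : H) (x : B), (h • x).1 = h.1 • x.1 := fun h x => rfl
  let barB : B → B := fun x => ⟨bar x.1, by rw [hfb]; exact x.2⟩
  let ΦB : Finset B := univ.filter (fun x => x.1 ∈ O)
  have hmem : ∀ x : B, x ∈ ΦB ↔ x.1 ∈ O := fun x => by simp [ΦB]
  -- `O` is a half of the block
  have hhalf := half_of_orbit bar hbb hbf hbG (univ.filter (fun x => f x = y₀))
    (fun x hx => by
      rw [mem_filter] at hx ⊢
      exact ⟨mem_univ _, by rw [hfb]; exact hx.2⟩)
    H O (fun x hx => by rw [mem_filter]; exact ⟨mem_univ _, hOy x hx⟩)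
    (fun x hx y hy => by
      rw [hO] at hx hy
      obtain ⟨h, hh⟩ := (orbit_eq_iff.2 hx) ▸ hy
      exact ⟨h.1, h.2, hh⟩)
    (fun g hg x hx => by
      rw [hO] at hx ⊢
      rw [← orbit_eq_iff.2 hx]
      exact ⟨⟨g, hg⟩, rfl⟩)
    (by rw [hOc]; exact (Nat.Prime.odd_of_ne_two Fact.out hl).pow)
    (by rw [hcard, hOc])
  -- a Sylow subgroup of `H` is transitive on `O`
  obtain ⟨Q⟩ : Nonempty (Sylow l H) := inferInstance
  have htrQ : ∀ x ∈ O, ∀ y ∈ O, ∃ q : Q, ((q : H) : G) • x = y := by
    intro x hx y hy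
    rw [hO] at hx hy
    have hB : Nat.card (orbit H x₀) = l ^ k := by
      have h1 : (O : Set X) = orbit H x₀ := by
        ext x
        exact hO x
      rw [← hOc, ← Set.ncard_coe_finset O, h1]
      rfl
    obtain ⟨q, hq⟩ := Pool.Agent.H925R2.sylow_transitive (G := H) (B := orbit H x₀) l k hB Q
      ⟨x, hx⟩ ⟨y, hy⟩
    exact ⟨q, congrArg Subtype.val hq⟩
  obtain ⟨g₁, hg₁⟩ := exists_smul_eq G x₁ x₀
  have key := coreQ (Q := Q) (B := B) l hl Q.isPGroup' barB
    (fun x => Subtype.ext (hbb x.1)) (fun g x => Subtype.ext (hbG (g : H).1 x.1)) ΦB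
    ⟨⟨x₀, hx₀⟩, (hmem _).2 hx₀O⟩
    (fun x => by
      rw [hmem, hmem]
      exact hhalf x.1 (by rw [mem_filter]; exact ⟨mem_univ _, x.2⟩))
    (fun x hx y hy => by
      rw [hmem] at hx hy
      obtain ⟨q, hq⟩ := htrQ x.1 hx y.1 hy
      exact ⟨q, Subtype.ext hq⟩)
    (fun x => ((n x.1 : ℤ) : ZMod l)) (fun x => by
      show ((n (bar x.1) : ℤ) : ZMod l) = _
      rw [hnb]; push_cast; rfl)
    (fun x => ((z (g₁⁻¹ • x.1) : ℤ) : ZMod l)) (fun x => by
      show ((z (g₁⁻¹ • bar x.1) : ℤ) : ZMod l) = _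
      rw [← hbG, hzb]; push_cast; rfl)
    ⟨x₀, hx₀⟩ (by
      show ((z (g₁⁻¹ • x₀) : ℤ) : ZMod l) ≠ 0
      rw [← hg₁, inv_smul_smul]
      intro h
      exact hx₁ ((ZMod.intCast_zmod_eq_zero_iff_dvd _ _).1 h))
    (by
      intro q
      let h : G := ((q : H) : G)
      have h1 := hz (h⁻¹ * g₁)
      have h2 : ∑ x, z (g₁⁻¹ • h • x) * n x = 0 := by
        rw [← h1]
        apply Finset.sum_nbij' (i := fun x => g₁⁻¹ • h • x) (j := fun x => h⁻¹ • g₁ • x)
        · intro x _; exact mem_univ _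
        · intro x _; exact mem_univ _
        · intro x _; simp
        · intro x _; simp
        · intro x _
          rw [mul_smul]; simp
      have h3 : ∑ x, (((z (g₁⁻¹ • h • x) * n x : ℤ)) : ZMod l) = 0 := by
        rw [← Int.cast_sum, h2, Int.cast_zero]
      rw [← Finset.sum_subset (Finset.subset_univ (univ.filter (fun x => f x = y₀)))] at h3
      · rw [Finset.sum_subtype (univ.filter (fun x => f x = y₀)) (p := fun x => f x = y₀)
          (fun x => by simp)] at h3
        rw [← h3]
        apply Finset.sum_congr rfl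
        intro x _
        push_cast
        rfl
      · intro x _ hx
        rw [mem_filter, not_and] at hx
        have h4 := hout x (hx (mem_univ _))
        rw [ZMod.intCast_zmod_eq_zero_iff_dvd]
        exact Dvd.dvd.mul_left h4 _)
  apply hin
  rw [← ZMod.intCast_zmod_eq_zero_iff_dvd, Int.cast_sum, ← key]
  symm
  refine Finset.sum_bij' (fun (x : B) _ => x.1) (fun (x : X) hx => (⟨x, hOy x hx⟩ : B))
    ?_ ?_ ?_ ?_ ?_
  · intro x hx; exact (hmem x).1 hx
  · intro x hx; exact (hmem _).2 hx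
  · intro x _; rfl
  · intro x _; rfl
  · intro x _; rfl

/-- An odd integral function orthogonal to all translates of `n` vanishes. -/
theorem zero_of_orbit [IsPretransitive G X] (l : ℕ) [Fact l.Prime] (hl : l ≠ 2) (bar : X → X)
    (hbb : ∀ x, bar (bar x) = x) (hbf : ∀ x, bar x ≠ x)
    (hbG : ∀ (g : G) x, bar (g • x) = g • bar x)
    (f : X → Y) (hf : ∀ (g : G) x, f (g • x) = g • f x) (hfb : ∀ x, f (bar x) = f x)
    (y₀ : Y) (k : ℕ) (hcard : (univ.filter (fun x => f x = y₀)).card = 2 * l ^ k)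
    (H : Subgroup G) (x₀ : X) (O : Finset X) (hO : ∀ x, x ∈ O ↔ x ∈ orbit H x₀)
    (hOy : ∀ x ∈ O, f x = y₀) (hOc : O.card = l ^ k)
    (n : X → ℤ) (hnb : ∀ x, n (bar x) = - n x)
    (hout : ∀ x, f x ≠ y₀ → (l : ℤ) ∣ n x) (hin : ¬ (l : ℤ) ∣ ∑ x ∈ O, n x)
    (z : X → ℤ) (hzb : ∀ x, z (bar x) = - z x)
    (hz : ∀ g : G, ∑ x, z x * n (g • x) = 0) : ∀ x, z x = 0 := by
  classical
  have hl0 : (l : ℤ) ≠ 0 := by exact_mod_cast (Nat.Prime.ne_zero Fact.out)
  suffices H : ∀ (N : ℕ) (z : X → ℤ), (∑ x, (z x).natAbs) ≤ N → (∀ x, z (bar x) = - z x) →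
      (∀ g : G, ∑ x, z x * n (g • x) = 0) → ∀ x, z x = 0 from
    H _ z le_rfl hzb hz
  intro N
  induction N using Nat.strong_induction_on with
  | _ N ih =>
    intro z hN hzb hz
    have hev : ∀ x, (l : ℤ) ∣ z x := dvd_block l hl bar hbb hbf hbG f hf hfb y₀ k hcard H x₀ O hO
      hOy hOc n hnb hout hin z hzb hz
    choose w hw2 using hev
    by_cases hall : ∀ x, z x = 0
    · exact hall
    · exfalso
      push Not at hall
      obtain ⟨x₀, hx₀⟩ := hall
      have hwx₀ : w x₀ ≠ 0 := by
        intro h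
        apply hx₀
        rw [hw2, h, mul_zero]
      have habs : ∀ x, (z x).natAbs = l * (w x).natAbs := fun x => by
        rw [hw2 x, Int.natAbs_mul, Int.natAbs_natCast]
      have hl2 : 2 ≤ l := Nat.Prime.two_le Fact.out
      have hlt : ∑ x, (w x).natAbs < ∑ x, (z x).natAbs := by
        apply Finset.sum_lt_sum
        · intro x _
          rw [habs x]
          exact Nat.le_mul_of_pos_left _ (by omega)
        · refine ⟨x₀, mem_univ _, ?_⟩
          rw [habs x₀]
          have h1 : 0 < (w x₀).natAbs := Int.natAbs_pos.2 hwx₀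
          nlinarith
      have hw0 := ih (∑ x, (w x).natAbs) (by omega) w le_rfl
        (by intro x
            have e1 := hw2 x
            have e2 := hw2 (bar x)
            have e3 := hzb x
            rw [e1, e2] at e3
            have e4 : (l : ℤ) * w (bar x) = l * (- w x) := by rw [e3]; ring
            exact mul_left_cancel₀ hl0 e4)
        (by intro g
            have e := hz g
            have e2 : ∑ x, z x * n (g • x) = l * ∑ x, w x * n (g • x) := by
              rw [Finset.mul_sum]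
              apply Finset.sum_congr rfl
              intro x _
              rw [hw2 x]; ring
            rw [e2] at e
            exact (mul_eq_zero.1 e).resolve_left hl0)
      exact hwx₀ (hw0 x₀)

end Main

end Pool.Agent.V8H71.OD
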