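import Mathlib

/-!
# Slope functions: conditions at one embedding of a totally real subfield
-/

set_option autoImplicit false

namespace Pool.Agent.V8H71.OD

open NumberField Module

section

variable {p : ℕ} [Fact p.Prime] {K : Type} [Field K] [NumberField K] [IsCMField K]

/-- The subfield `F` of the CM field `K` is totally real: complex conjugation is the identity
on `F`. -/
def IsReal (F : IntermediateField ℚ K) : Prop := ∀ x ∈ F, IsCMField.complexConj K x = x

/-- The embeddings `τ` and `τ'` of `K` agree on the subfield `F`. -/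
def Agree (F : IntermediateField ℚ K) (τ τ' : K →+* PadicAlgCl p) : Prop :=
  ∀ x ∈ F, τ x = τ' x

/-- There are an odd prime `l` and a totally real subfield `F` with `[K : F] = 2 l ^ k` such that `u`
is divisible by `l` at all embeddings of `K` which do not agree with `τ₀` on `F`, and the sum of
`u` over an orbit of `l ^ k` embeddings that agree with `τ₀` on `F` (for some group of
automorphisms of the field `PadicAlgCl p`) is not divisible by `l`. -/
def OrbitBlock (u : (K →+* PadicAlgCl p) → ℤ) : Prop :=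
  ∃ (l k : ℕ) (F : IntermediateField ℚ K) (τ₀ : K →+* PadicAlgCl p)
    (H : Subgroup (PadicAlgCl p ≃+* PadicAlgCl p)) (O : Finset (K →+* PadicAlgCl p)),
    l.Prime ∧ l ≠ 2 ∧ IsReal F ∧ finrank F K = 2 * l ^ k ∧
    (∀ τ, ¬ Agree F τ τ₀ → (l : ℤ) ∣ u τ) ∧
    (∀ τ, τ ∈ O ↔ ∃ σ ∈ H, τ = (σ : PadicAlgCl p →+* PadicAlgCl p).comp τ₀) ∧
    (∀ τ ∈ O, Agree F τ τ₀) ∧ O.card = l ^ k ∧ ¬ (l : ℤ) ∣ ∑ τ ∈ O, u τ

/-- There are an odd prime `l` and a totally real subfield `F` with `[K : F] = 2 l ^ k` such that `u`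
is divisible by `l` at all embeddings of `K` which do not agree with `τ₀` on `F`, and is congruent
to `b`, `0` or `-b` modulo `l` at those which do, where `l` does not divide `b`; and the number of
the latter embeddings with `u ≡ b` is odd and less than `l`. -/
def CountBlock (u : (K →+* PadicAlgCl p) → ℤ) : Prop :=
  ∃ (l k : ℕ) (F : IntermediateField ℚ K) (τ₀ : K →+* PadicAlgCl p) (b : ℤ),
    l.Prime ∧ l ≠ 2 ∧ IsReal F ∧ finrank F K = 2 * l ^ k ∧ ¬ (l : ℤ) ∣ b ∧
    (∀ τ, ¬ Agree F τ τ₀ → (l : ℤ) ∣ u τ) ∧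
    (∀ τ, Agree F τ τ₀ → (l : ℤ) ∣ u τ - b ∨ (l : ℤ) ∣ u τ ∨ (l : ℤ) ∣ u τ + b) ∧
    Odd {τ : K →+* PadicAlgCl p | Agree F τ τ₀ ∧ (l : ℤ) ∣ u τ - b}.ncard ∧
    {τ : K →+* PadicAlgCl p | Agree F τ τ₀ ∧ (l : ℤ) ∣ u τ - b}.ncard < l

/-- There is a totally real subfield `F` with `[K : F] = 2 ^ (k + 1)` such that `u` is congruent
to `ε` modulo `2` at all embeddings of `K` which do not agree with `τ₀` on `F` (where `ε` is even
or the degree of `K` is divisible by `4`), and the number of the embeddings which agree with `τ₀`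
on `F` at which this is not the case is congruent to `2` modulo `4`. -/
def TwoBlock (u : (K →+* PadicAlgCl p) → ℤ) : Prop :=
  ∃ (k : ℕ) (F : IntermediateField ℚ K) (τ₀ : K →+* PadicAlgCl p) (ε : ℤ),
    IsReal F ∧ finrank F K = 2 ^ (k + 1) ∧ (Even ε ∨ 4 ∣ finrank ℚ K) ∧
    (∀ τ, ¬ Agree F τ τ₀ → Even (u τ - ε)) ∧
    {τ : K →+* PadicAlgCl p | Agree F τ τ₀ ∧ Odd (u τ - ε)}.ncard % 4 = 2

/-- One of the three conditions. -/
def BlockCondition (u : (K →+* PadicAlgCl p) → ℤ) : Prop :=
  OrbitBlock u ∨ CountBlock u ∨ TwoBlock u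

end

/-- The Weil number `π` for `p ^ a` in the CM field `K` has the slope function `u`, up to a nonzero
rational factor `κ`: the slope of `π` at the embedding `τ` of `K` is `(a + κ u τ) / 2`, for the
valuation with the value one at `p`. -/
structure HasSlopeFunction {p : ℕ} [Fact p.Prime] (a : ℕ) {K : Type} [Field K] [NumberField K]
    [IsCMField K] (π : K) (u : (K →+* PadicAlgCl p) → ℤ) : Prop where
  weil : π * IsCMField.complexConj K π = (p : K) ^ a
  slopes : ∃ κ : ℚ, κ ≠ 0 ∧ ∀ τ : K →+* PadicAlgCl p,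
    2 * (- Real.logb p ‖τ π‖) - a = (κ : ℝ) * u τ

end Pool.Agent.V8H71.OD
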