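import Pool.Agent.V8H71.OD.Core

/-!
Odd integral functions orthogonal to all translates of a slope function vanish.
-/

set_option autoImplicit false

namespace Pool.Agent.V8H71.OD

open MulAction Finset

variable {G X Y : Type*} [Group G] [Finite G] [MulAction G X] [Fintype X] [DecidableEq X]
  [MulAction G Y]

/-- The action of the stabiliser of `y₀` on the fibre. -/
@[reducible] def fibAct (f : X → Y) (hf : ∀ (g : G) x, f (g • x) = g • f x) (y₀ : Y) :
    MulAction (stabilizer G y₀) {x // f x = y₀} where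
  smul h x := ⟨h.1 • x.1, by rw [hf, x.2]; exact h.2⟩
  one_smul x := Subtype.ext (one_smul G x.1)
  mul_smul a b x := Subtype.ext (mul_smul a.1 b.1 x.1)

theorem modl [IsPretransitive G X] (l : ℕ) [Fact l.Prime] (hl : l ≠ 2) (bar : X → X)
    (hbb : ∀ x, bar (bar x) = x) (hbG : ∀ (g : G) x, bar (g • x) = g • bar x)
    (f : X → Y) (hf : ∀ (g : G) x, f (g • x) = g • f x) (hfb : ∀ x, f (bar x) = f x)
    (y₀ : Y) (k : ℕ) (hcard : Nat.card {x // f x = y₀} = 2 * l ^ k)
    (P : Sylow l (stabilizer G y₀)) (Φ : Finset X) (hΦ0 : ∀ x ∈ Φ, f x = y₀)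
    (hΦ : ∀ x, f x = y₀ → (x ∈ Φ ↔ bar x ∉ Φ)) (hP : ∀ g ∈ P, ∀ x ∈ Φ, g.1 • x ∈ Φ)
    (n : X → ℤ) (hnb : ∀ x, n (bar x) = - n x)
    (hout : ∀ x, f x ≠ y₀ → (l : ℤ) ∣ n x) (hin : ¬ (l : ℤ) ∣ ∑ x ∈ Φ, n x)
    (z : X → ℤ) (hzb : ∀ x, z (bar x) = - z x)
    (hz : ∀ g : G, ∑ x, z x * n (g • x) = 0) (x₁ : X) : (l : ℤ) ∣ z x₁ := by
  classical
  by_contra hx₁
  let B := {x // f x = y₀}
  let _ := fibAct f hf y₀
  have hsm : ∀ (h : stabilizer G y₀) (x : B), (h • x).1 = h.1 • x.1 := fun h x => rfl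
  have hBpos : 0 < Nat.card B := by
    rw [hcard]; exact Nat.mul_pos two_pos (pow_pos (Nat.Prime.pos Fact.out) k)
  obtain ⟨x₂⟩ : Nonempty B := (Nat.card_pos_iff.1 hBpos).1
  obtain ⟨g₁, hg₁⟩ := exists_smul_eq G x₁ x₂.1
  have htr : IsPretransitive (stabilizer G y₀) B := by
    constructor
    intro x y
    obtain ⟨g, hg⟩ := exists_smul_eq G x.1 y.1
    refine ⟨⟨g, ?_⟩, Subtype.ext hg⟩
    rw [mem_stabilizer_iff, ← x.2, ← hf, hg, y.2, x.2]
  let barB : B → B := fun x => ⟨bar x.1, by rw [hfb]; exact x.2⟩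
  let ΦB : Finset B := univ.filter (fun x => x.1 ∈ Φ)
  have hmem : ∀ x : B, x ∈ ΦB ↔ x.1 ∈ Φ := fun x => by simp [ΦB]
  have key := core (H := stabilizer G y₀) (B := B) l hl barB (fun x => Subtype.ext (hbb x.1))
    (fun g x => Subtype.ext (hbG g.1 x.1)) k (by rw [← Nat.card_eq_fintype_card]; exact hcard)
    P ΦB (fun x => by rw [hmem, hmem]; exact hΦ x.1 x.2)
    (fun g hg x hx => by rw [hmem] at hx ⊢; exact hP g hg x.1 hx)
    (fun x => ((n x.1 : ℤ) : ZMod l)) (fun x => by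
      show ((n (bar x.1) : ℤ) : ZMod l) = _
      rw [hnb]; push_cast; rfl)
    (fun x => ((z (g₁⁻¹ • x.1) : ℤ) : ZMod l)) (fun x => by
      show ((z (g₁⁻¹ • bar x.1) : ℤ) : ZMod l) = _
      rw [← hbG, hzb]; push_cast; rfl)
    x₂ (by
      show ((z (g₁⁻¹ • x₂.1) : ℤ) : ZMod l) ≠ 0
      rw [← hg₁, inv_smul_smul]
      intro h
      exact hx₁ ((ZMod.intCast_zmod_eq_zero_iff_dvd _ _).1 h))
    (by
      intro h
      have h1 := hz (h.1⁻¹ * g₁)
      have h2 : ∑ x, z (g₁⁻¹ • h.1 • x) * n x = 0 := by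
        rw [← h1]
        apply Finset.sum_nbij' (i := fun x => g₁⁻¹ • h.1 • x) (j := fun x => h.1⁻¹ • g₁ • x)
        · intro x _; exact mem_univ _
        · intro x _; exact mem_univ _
        · intro x _; simp
        · intro x _; simp
        · intro x _
          rw [mul_smul]; simp
      have h3 : ∑ x, (((z (g₁⁻¹ • h.1 • x) * n x : ℤ)) : ZMod l) = 0 := by
        rw [← Int.cast_sum, h2, Int.cast_zero]
      rw [← Finset.sum_subset (Finset.subset_univ (univ.filter (fun x => f x = y₀)))] at h3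
      · rw [Finset.sum_subtype (univ.filter (fun x => f x = y₀)) (p := fun x => f x = y₀)
          (fun x => by simp)] at h3
        rw [← h3]
        apply Finset.sum_congr rfl
        intro x _
        rw [hsm]
        push_cast
        rfl
      · intro x _ hx
        rw [mem_filter, not_and] at hx
        have h4 := hout x (hx (mem_univ _))
        rw [ZMod.intCast_zmod_eq_zero_iff_dvd]
        exact Dvd.dvd.mul_left h4 _)
  apply hin
  rw [← ZMod.intCast_zmod_eq_zero_iff_dvd, Int.cast_sum, ← key]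
  symm
  refine Finset.sum_bij' (fun (x : B) _ => x.1) (fun (x : X) hx => (⟨x, hΦ0 x hx⟩ : B))
    ?_ ?_ ?_ ?_ ?_
  · intro x hx; exact (hmem x).1 hx
  · intro x hx; exact (hmem _).2 hx
  · intro x _; rfl
  · intro x _; rfl
  · intro x _; rfl

/-- An odd integral function orthogonal to all translates of `n` vanishes. -/
theorem orth_zero [IsPretransitive G X] (l : ℕ) [Fact l.Prime] (hl : l ≠ 2) (bar : X → X)
    (hbb : ∀ x, bar (bar x) = x) (hbG : ∀ (g : G) x, bar (g • x) = g • bar x)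
    (f : X → Y) (hf : ∀ (g : G) x, f (g • x) = g • f x) (hfb : ∀ x, f (bar x) = f x)
    (y₀ : Y) (k : ℕ) (hcard : Nat.card {x // f x = y₀} = 2 * l ^ k)
    (P : Sylow l (stabilizer G y₀)) (Φ : Finset X) (hΦ0 : ∀ x ∈ Φ, f x = y₀)
    (hΦ : ∀ x, f x = y₀ → (x ∈ Φ ↔ bar x ∉ Φ)) (hP : ∀ g ∈ P, ∀ x ∈ Φ, g.1 • x ∈ Φ)
    (n : X → ℤ) (hnb : ∀ x, n (bar x) = - n x)
    (hout : ∀ x, f x ≠ y₀ → (l : ℤ) ∣ n x) (hin : ¬ (l : ℤ) ∣ ∑ x ∈ Φ, n x)
    (z : X → ℤ) (hzb : ∀ x, z (bar x) = - z x)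
    (hz : ∀ g : G, ∑ x, z x * n (g • x) = 0) : ∀ x, z x = 0 := by
  classical
  have hl0 : (l : ℤ) ≠ 0 := by exact_mod_cast (Nat.Prime.ne_zero Fact.out)
  suffices H : ∀ (N : ℕ) (z : X → ℤ), (∑ x, (z x).natAbs) ≤ N → (∀ x, z (bar x) = - z x) →
      (∀ g : G, ∑ x, z x * n (g • x) = 0) → ∀ x, z x = 0 from
    H _ z le_rfl hzb hz
  intro N
  induction N using Nat.strong_induction_on with
  | _ N ih =>
    intro z hN hzb hz
    have hev : ∀ x, (l : ℤ) ∣ z x := modl l hl bar hbb hbG f hf hfb y₀ k hcard P Φ hΦ0 hΦ hP n hnb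
      hout hin z hzb hz
    choose w hw2 using hev
    by_cases hall : ∀ x, z x = 0
    · exact hall
    · exfalso
      push Not at hall
      obtain ⟨x₀, hx₀⟩ := hall
      have hwx₀ : w x₀ ≠ 0 := by
        intro h
        apply hx₀
        rw [hw2, h, mul_zero]
      have habs : ∀ x, (z x).natAbs = l * (w x).natAbs := fun x => by
        rw [hw2 x, Int.natAbs_mul, Int.natAbs_natCast]
      have hl2 : 2 ≤ l := Nat.Prime.two_le Fact.out
      have hlt : ∑ x, (w x).natAbs < ∑ x, (z x).natAbs := by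
        apply Finset.sum_lt_sum
        · intro x _
          rw [habs x]
          exact Nat.le_mul_of_pos_left _ (by omega)
        · refine ⟨x₀, mem_univ _, ?_⟩
          rw [habs x₀]
          have h1 : 0 < (w x₀).natAbs := Int.natAbs_pos.2 hwx₀
          nlinarith
      have hw0 := ih (∑ x, (w x).natAbs) (by omega) w le_rfl
        (by intro x
            have e1 := hw2 x
            have e2 := hw2 (bar x)
            have e3 := hzb x
            rw [e1, e2] at e3
            have e4 : (l : ℤ) * w (bar x) = l * (- w x) := by rw [e3]; ring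
            exact mul_left_cancel₀ hl0 e4)
        (by intro g
            have e := hz g
            have e2 : ∑ x, z x * n (g • x) = l * ∑ x, w x * n (g • x) := by
              rw [Finset.mul_sum]
              apply Finset.sum_congr rfl
              intro x _
              rw [hw2 x]; ring
            rw [e2] at e
            exact (mul_eq_zero.1 e).resolve_left hl0)
      exact hwx₀ (hw0 x₀)

/-- For every Sylow `l`-subgroup of the stabiliser there is a stable half of the fibre. -/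
theorem exists_halfF [IsPretransitive G X] (l : ℕ) [Fact l.Prime] (hl : l ≠ 2) (bar : X → X)
    (hbb : ∀ x, bar (bar x) = x) (hbf : ∀ x, bar x ≠ x)
    (hbG : ∀ (g : G) x, bar (g • x) = g • bar x)
    (f : X → Y) (hf : ∀ (g : G) x, f (g • x) = g • f x) (hfb : ∀ x, f (bar x) = f x)
    (y₀ : Y) (k : ℕ) (hcard : Nat.card {x // f x = y₀} = 2 * l ^ k)
    (P : Sylow l (stabilizer G y₀)) : ∃ Φ : Finset X, (∀ x ∈ Φ, f x = y₀) ∧
      (∀ x, f x = y₀ → (x ∈ Φ ↔ bar x ∉ Φ)) ∧ ∀ g ∈ P, ∀ x ∈ Φ, g.1 • x ∈ Φ := by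
  classical
  let B := {x // f x = y₀}
  let _ := fibAct f hf y₀
  have hsm : ∀ (h : stabilizer G y₀) (x : B), (h • x).1 = h.1 • x.1 := fun h x => rfl
  have htr : IsPretransitive (stabilizer G y₀) B := by
    constructor
    intro x y
    obtain ⟨g, hg⟩ := exists_smul_eq G x.1 y.1
    refine ⟨⟨g, ?_⟩, Subtype.ext hg⟩
    rw [mem_stabilizer_iff, ← x.2, ← hf, hg, y.2, x.2]
  let barB : B → B := fun x => ⟨bar x.1, by rw [hfb]; exact x.2⟩
  obtain ⟨Φ, h1, h2⟩ := exists_half (H := stabilizer G y₀) (B := B) l hl barB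
    (fun x => Subtype.ext (hbb x.1)) (fun x h => hbf x.1 (congrArg Subtype.val h))
    (fun g x => Subtype.ext (hbG g.1 x.1)) k (by rw [← Nat.card_eq_fintype_card]; exact hcard) P
  refine ⟨Φ.map (Function.Embedding.subtype _), ?_, ?_, ?_⟩
  · intro x hx
    obtain ⟨y, _, rfl⟩ := Finset.mem_map.1 hx
    exact y.2
  · intro x hx
    have e1 : ∀ y : B, y.1 ∈ Φ.map (Function.Embedding.subtype _) ↔ y ∈ Φ := by
      intro y
      exact Finset.mem_map' (Function.Embedding.subtype _)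
    rw [e1 ⟨x, hx⟩]
    have e2 := e1 (barB ⟨x, hx⟩)
    rw [h1 ⟨x, hx⟩, not_iff_not]
    exact e2.symm
  · intro g hg x hx
    obtain ⟨y, hy, rfl⟩ := Finset.mem_map.1 hx
    exact Finset.mem_map.2 ⟨g • y, h2 g hg y hy, rfl⟩

end Pool.Agent.V8H71.OD
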