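import Mathlib
import Pool.Agent.V8H71.OD.CritDefs
import Pool.Agent.V8H71.OD.Block
import Pool.Agent.V8H71.OD.Orth
import Pool.Agent.V8H71.OD.Angle
import Pool.Agent.H977R3.WN.Good
import Pool.Agent.H924R2.Parity

/-!
# The conditions imply that there are no relations
-/

set_option autoImplicit false
set_option linter.unusedSectionVars false
set_option linter.unusedVariables false

namespace Pool.Agent.V8H71.OD

open NumberField Module MulAction Finset Pool.Agent.H204R3.CM Pool.Agent.H977R3.WN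
  Pool.Agent.H977R3.CM

section count

variable {X Y : Type*} [Fintype X] [DecidableEq X] [DecidableEq Y]

/-- The sum over a half of a block, if the values are `b`, `0`, `-b` modulo `l`. -/
theorem not_dvd_of_count (l : ℕ) (hl : l.Prime) (hl2 : l ≠ 2) (bar : X → X)
    (hbb : ∀ x, bar (bar x) = x) (f : X → Y) (hfb : ∀ x, f (bar x) = f x) (y₀ : Y)
    (Φ : Finset X) (hΦ0 : ∀ x ∈ Φ, f x = y₀) (hΦ : ∀ x, f x = y₀ → (x ∈ Φ ↔ bar x ∉ Φ))
    (n : X → ℤ) (hnb : ∀ x, n (bar x) = - n x) (b : ℤ) (hb : ¬ (l : ℤ) ∣ b)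
    (hv : ∀ x, f x = y₀ → (l : ℤ) ∣ n x - b ∨ (l : ℤ) ∣ n x ∨ (l : ℤ) ∣ n x + b)
    (M : Finset X) (hM : ∀ x, x ∈ M ↔ f x = y₀ ∧ (l : ℤ) ∣ n x - b)
    (hodd : Odd M.card) (hlt : M.card < l) : ¬ (l : ℤ) ∣ ∑ x ∈ Φ, n x := by
  classical
  have hlp : Prime (l : ℤ) := Nat.prime_iff_prime_int.1 hl
  have h2 : ¬ (l : ℤ) ∣ 2 * b := by
    intro h
    rcases hlp.dvd_or_dvd h with h | h
    · have h3 : l ∣ 2 := by exact_mod_cast h
      exact hl2 ((Nat.prime_dvd_prime_iff_eq hl Nat.prime_two).1 h3)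
    · exact hb h
  -- the two parts of `Φ`
  have hsum : (l : ℤ) ∣ ∑ x ∈ Φ, n x -
      b * (((Φ.filter (fun x => x ∈ M)).card : ℤ) - ((Φ.filter (fun x => bar x ∈ M)).card : ℤ)) := by
    have h1 : b * (((Φ.filter (fun x => x ∈ M)).card : ℤ) -
        ((Φ.filter (fun x => bar x ∈ M)).card : ℤ)) =
        ∑ x ∈ Φ, ((if x ∈ M then b else 0) - (if bar x ∈ M then b else 0)) := by
      rw [Finset.sum_sub_distrib, ← Finset.sum_filter, ← Finset.sum_filter, Finset.sum_const,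
        Finset.sum_const, nsmul_eq_mul, nsmul_eq_mul]
      ring
    rw [h1, ← Finset.sum_sub_distrib]
    apply Finset.dvd_sum
    intro x hx
    have hfx := hΦ0 x hx
    have e1 : x ∈ M ↔ (l : ℤ) ∣ n x - b := by rw [hM]; exact ⟨fun h => h.2, fun h => ⟨hfx, h⟩⟩
    have e2 : bar x ∈ M ↔ (l : ℤ) ∣ n x + b := by
      rw [hM, hfb, hnb]
      have e3 : - n x - b = -(n x + b) := by ring
      rw [e3, Int.dvd_neg]
      exact ⟨fun h => h.2, fun h => ⟨hfx, h⟩⟩
    rcases hv x hfx with h | h | h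
    · have h3 : ¬ (l : ℤ) ∣ n x + b := by
        intro h4
        apply h2
        have h5 := dvd_sub h4 h
        have h6 : n x + b - (n x - b) = 2 * b := by ring
        rwa [h6] at h5
      rw [if_pos (e1.2 h), if_neg (fun h4 => h3 (e2.1 h4)), sub_zero]
      exact h
    · have h3 : ¬ (l : ℤ) ∣ n x + b := by
        intro h4
        apply hb
        have h5 := dvd_sub h4 h
        have h6 : n x + b - n x = b := by ring
        rwa [h6] at h5
      have h3' : ¬ (l : ℤ) ∣ n x - b := by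
        intro h4
        apply hb
        have h5 := dvd_sub h h4
        have h6 : n x - (n x - b) = b := by ring
        rwa [h6] at h5
      rw [if_neg (fun h4 => h3' (e1.1 h4)), if_neg (fun h4 => h3 (e2.1 h4)), sub_zero, sub_zero]
      exact h
    · have h3 : ¬ (l : ℤ) ∣ n x - b := by
        intro h4
        apply h2
        have h5 := dvd_sub h h4
        have h6 : n x + b - (n x - b) = 2 * b := by ring
        rwa [h6] at h5
      rw [if_neg (fun h4 => h3 (e1.1 h4)), if_pos (e2.2 h), zero_sub, sub_neg_eq_add]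
      exact h
  have hcount : (Φ.filter (fun x => x ∈ M)).card + (Φ.filter (fun x => bar x ∈ M)).card =
      M.card := by
    have h3 : (Φ.filter (fun x => bar x ∈ M)).card = (M.filter (fun x => x ∉ Φ)).card := by
      apply Finset.card_nbij' (i := bar) (j := bar)
      · intro x hx
        rw [mem_coe, mem_filter] at hx ⊢
        exact ⟨hx.2, (hΦ x (hΦ0 x hx.1)).1 hx.1⟩
      · intro x hx
        rw [mem_coe, mem_filter] at hx ⊢
        refine ⟨?_, by rw [hbb]; exact hx.1⟩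
        have h4 := (hM x).1 hx.1
        have h5 := hΦ x h4.1
        by_contra h6
        exact hx.2 (h5.2 h6)
      · intro x _; exact hbb x
      · intro x _; exact hbb x
    have h4 : Φ.filter (fun x => x ∈ M) = M.filter (fun x => x ∈ Φ) := by
      ext x
      rw [mem_filter, mem_filter]
      exact and_comm
    rw [h3, h4, Finset.card_filter_add_card_filter_not]
  intro hdvd
  have h4 := dvd_sub hdvd hsum
  rw [sub_sub_cancel] at h4
  rcases hlp.dvd_or_dvd h4 with h5 | h5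
  · exact hb h5
  · obtain ⟨c, hc⟩ := hodd
    obtain ⟨d, hd⟩ := h5
    have h6 : ((Φ.filter (fun x => x ∈ M)).card : ℤ) -
        ((Φ.filter (fun x => bar x ∈ M)).card : ℤ) ≠ 0 := by omega
    have h7 : (l : ℤ) ≤ |((Φ.filter (fun x => x ∈ M)).card : ℤ) -
        ((Φ.filter (fun x => bar x ∈ M)).card : ℤ)| :=
      Int.le_of_dvd (abs_pos.2 h6) ((dvd_abs _ _).2 ⟨d, hd⟩)
    rcases abs_cases (((Φ.filter (fun x => x ∈ M)).card : ℤ) -
        ((Φ.filter (fun x => bar x ∈ M)).card : ℤ)) with ⟨h8, _⟩ | ⟨h8, _⟩ <;> omega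

end count

variable {p : ℕ} [Fact p.Prime] {K : Type} [Field K] [NumberField K] [IsCMField K]
  {u : (K →+* PadicAlgCl p) → ℤ} {L : Type} [Field L] [NumberField L] [IsGalois ℚ L]

theorem card_block (F : IntermediateField ℚ K) (j : L →+* ℂ)
    (h : ∀ ψ : K →+* ℂ, ∃ φ : K →+* L, j.comp φ = ψ) (y₀ : F →+* L)
    [DecidableEq (F →+* L)] :
    (univ.filter (fun φ : K →+* L => φ.comp (algebraMap F K) = y₀)).card = finrank F K :=
  card_fibre (G := L ≃ₐ[ℚ] L) (R := K →+* L) (R₀ := F →+* L)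
    (fun φ => φ.comp (algebraMap F K)) (fun g x => rfl) _ (card_tower' F j h) y₀

theorem restrict_cbar {F : IntermediateField ℚ K} (hF : IsReal F) (φ : K →+* L) :
    (cbar φ).comp (algebraMap F K) = φ.comp (algebraMap F K) := by
  refine RingHom.ext fun x => ?_
  change φ (IsCMField.complexConj K x) = φ x
  rw [hF _ x.2]

theorem agree_iff (F : IntermediateField ℚ K) (jp : L →+* PadicAlgCl p) (φ φ' : K →+* L) :
    Agree F (jp.comp φ) (jp.comp φ') ↔
      φ.comp (algebraMap F K) = φ'.comp (algebraMap F K) := by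
  constructor
  · intro h
    refine RingHom.ext fun x => jp.injective ?_
    exact h x x.2
  · intro h x hx
    exact congrArg jp (RingHom.congr_fun h ⟨x, hx⟩)

theorem comp_inj (jp : L →+* PadicAlgCl p) :
    Function.Injective (fun φ : K →+* L => jp.comp φ) := fun φ φ' h =>
  RingHom.ext fun x => jp.injective (RingHom.congr_fun h x)

theorem single_orbitBlock (hanti : ∀ τ, u (cbar τ) = -u τ) (hu : OrbitBlock u) (j : L →+* ℂ)
    (h : ∀ ψ : K →+* ℂ, ∃ φ : K →+* L, j.comp φ = ψ) (jp : L →+* PadicAlgCl p) :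
    Single (fun φ : K →+* L => u (jp.comp φ)) := by
  classical
  obtain ⟨l, k, F, τ, H, O, hl, hl2, hF, hdeg, hout, hO, hOF, hcard, hnd⟩ := hu
  intro c hc hrel
  have _ : Fact l.Prime := ⟨hl⟩
  obtain ⟨φ₀, rfl⟩ := factor j h jp τ
  have hinj := comp_inj (K := K) jp
  have hOimg : O = (Finset.univ.filter (fun φ => φ ∈ orbit (img' jp H) φ₀)).image
      (fun φ : K →+* L => jp.comp φ) := by
    ext τ'
    rw [hO, Finset.mem_image]
    constructor
    · rintro ⟨σ, hσ, rfl⟩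
      obtain ⟨g, hg⟩ := exists_gal' jp σ
      refine ⟨g • φ₀, ?_, ?_⟩
      · rw [Finset.mem_filter]
        exact ⟨Finset.mem_univ _, ⟨⟨g, σ, hσ, hg⟩, rfl⟩⟩
      · ext x
        change jp (g (φ₀ x)) = σ (jp (φ₀ x))
        rw [hg]
    · rintro ⟨φ, hφ, rfl⟩
      rw [Finset.mem_filter] at hφ
      obtain ⟨-, ⟨⟨g, σ, hσ, hg⟩, rfl⟩⟩ := hφ
      refine ⟨σ, hσ, ?_⟩
      ext x
      change jp (g (φ₀ x)) = σ (jp (φ₀ x))
      rw [hg]
  have hsum : ∑ τ' ∈ O, u τ' = ∑ φ ∈ Finset.univ.filter (fun φ => φ ∈ orbit (img' jp H) φ₀),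
      u (jp.comp φ) := by
    rw [hOimg, Finset.sum_image (fun x _ y _ hxy => hinj hxy)]
  have hcard' : (Finset.univ.filter (fun φ => φ ∈ orbit (img' jp H) φ₀)).card = l ^ k := by
    rw [← hcard, hOimg, Finset.card_image_of_injective _ hinj]
  have hmem : ∀ φ ∈ Finset.univ.filter (fun φ => φ ∈ orbit (img' jp H) φ₀),
      φ.comp (algebraMap F K) = φ₀.comp (algebraMap F K) := by
    intro φ hφ
    rw [← agree_iff F jp]
    apply hOF
    rw [hOimg]
    exact Finset.mem_image_of_mem _ hφ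
  rw [hsum] at hnd
  exact zero_of_orbit (G := L ≃ₐ[ℚ] L) (X := K →+* L) (Y := F →+* L) l hl2 cbar cbar_cbar cbar_ne
    (fun g x => rfl) (fun φ => φ.comp (algebraMap F K)) (fun g x => rfl)
    (fun φ => restrict_cbar hF φ) (φ₀.comp (algebraMap F K)) k
    ((card_block F j h _).trans hdeg) (img' jp H) φ₀ _
    (fun x => by rw [Finset.mem_filter]; exact ⟨fun h => h.2, fun h => ⟨Finset.mem_univ _, h⟩⟩)
    hmem hcard' (fun φ => u (jp.comp φ)) (fun x => hanti (jp.comp x))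
    (fun φ hφ => hout _ (fun h => hφ ((agree_iff F jp _ _).1 h))) hnd c hc hrel

theorem single_countBlock (hanti : ∀ τ, u (cbar τ) = -u τ) (hu : CountBlock u) (j : L →+* ℂ)
    (h : ∀ ψ : K →+* ℂ, ∃ φ : K →+* L, j.comp φ = ψ) (jp : L →+* PadicAlgCl p) :
    Single (fun φ : K →+* L => u (jp.comp φ)) := by
  classical
  obtain ⟨l, k, F, τ, b, hl, hl2, hF, hdeg, hb, hout, hval, hodd, hlt⟩ := hu
  intro c hc hrel
  have _ : Fact l.Prime := ⟨hl⟩
  obtain ⟨φ₀, rfl⟩ := factor j h jp τ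
  have hinj := comp_inj (K := K) jp
  let f : (K →+* L) → (F →+* L) := fun φ => φ.comp (algebraMap F K)
  let y₀ : F →+* L := φ₀.comp (algebraMap F K)
  let M : Finset (K →+* L) := univ.filter (fun φ => f φ = y₀ ∧ (l : ℤ) ∣ u (jp.comp φ) - b)
  have hM : ({τ : K →+* PadicAlgCl p | Agree F τ (jp.comp φ₀) ∧ (l : ℤ) ∣ u τ - b}).ncard =
      M.card := by
    rw [← Set.ncard_coe_finset, ← Set.ncard_image_of_injective _ hinj]
    congr 1
    ext τ
    constructor
    · rintro ⟨h1, h2⟩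
      obtain ⟨φ, rfl⟩ := factor j h jp τ
      refine ⟨φ, ?_, rfl⟩
      rw [mem_coe, mem_filter]
      exact ⟨mem_univ _, (agree_iff F jp _ _).1 h1, h2⟩
    · rintro ⟨φ, hφ, rfl⟩
      rw [mem_coe, mem_filter] at hφ
      exact ⟨(agree_iff F jp _ _).2 hφ.2.1, hφ.2.2⟩
  rw [hM] at hodd hlt
  have hcardB : Nat.card {φ : K →+* L // f φ = y₀} = 2 * l ^ k := by
    rw [Nat.card_eq_fintype_card, Fintype.card_subtype]
    exact (card_block F j h _).trans hdeg
  obtain ⟨P⟩ : Nonempty (Sylow l (stabilizer (L ≃ₐ[ℚ] L) y₀)) := inferInstance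
  obtain ⟨Φ, hΦ1, hΦ2, hΦ3⟩ := exists_halfF (G := L ≃ₐ[ℚ] L) (X := K →+* L) (Y := F →+* L) l hl2
    cbar cbar_cbar cbar_ne (fun g x => rfl) f (fun g x => rfl) (fun φ => restrict_cbar hF φ) y₀ k
    hcardB P
  refine orth_zero (G := L ≃ₐ[ℚ] L) (X := K →+* L) (Y := F →+* L) l hl2 cbar cbar_cbar
    (fun g x => rfl) f (fun g x => rfl) (fun φ => restrict_cbar hF φ) y₀ k hcardB P Φ hΦ1 hΦ2 hΦ3
    (fun φ => u (jp.comp φ)) (fun x => hanti (jp.comp x))
    (fun φ hφ => hout _ (fun h => hφ ((agree_iff F jp _ _).1 h))) ?_ c hc hrel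
  exact not_dvd_of_count l hl hl2 cbar cbar_cbar f (fun φ => restrict_cbar hF φ) y₀ Φ hΦ1 hΦ2
    (fun φ => u (jp.comp φ)) (fun x => hanti (jp.comp x)) b hb
    (fun φ hφ => hval _ ((agree_iff F jp _ _).2 hφ)) M (fun φ => by simp [M]) hodd hlt

theorem single_twoBlock (hanti : ∀ τ, u (cbar τ) = -u τ) (hu : TwoBlock u) (j : L →+* ℂ)
    (h : ∀ ψ : K →+* ℂ, ∃ φ : K →+* L, j.comp φ = ψ) (jp : L →+* PadicAlgCl p) :
    Single (fun φ : K →+* L => u (jp.comp φ)) := by
  classical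
  obtain ⟨k, F, τ, ε, hF, hdeg, hε, hout, hin⟩ := hu
  intro c hc hrel
  obtain ⟨φ₀, rfl⟩ := factor j h jp τ
  have hinj := comp_inj (K := K) jp
  let f : (K →+* L) → (F →+* L) := fun φ => φ.comp (algebraMap F K)
  let y₀ : F →+* L := φ₀.comp (algebraMap F K)
  have hM : ({τ : K →+* PadicAlgCl p | Agree F τ (jp.comp φ₀) ∧ Odd (u τ - ε)}).ncard =
      (univ.filter (fun φ => f φ = y₀ ∧ Odd (u (jp.comp φ) - ε))).card := by
    rw [← Set.ncard_coe_finset, ← Set.ncard_image_of_injective _ hinj]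
    congr 1
    ext τ
    constructor
    · rintro ⟨h1, h2⟩
      obtain ⟨φ, rfl⟩ := factor j h jp τ
      refine ⟨φ, ?_, rfl⟩
      rw [mem_coe, mem_filter]
      exact ⟨mem_univ _, (agree_iff F jp _ _).1 h1, h2⟩
    · rintro ⟨φ, hφ, rfl⟩
      rw [mem_coe, mem_filter] at hφ
      exact ⟨(agree_iff F jp _ _).2 hφ.2.1, hφ.2.2⟩
  rw [hM] at hin
  exact Pool.Agent.H924R2.odd_orthogonal_zero (G := L ≃ₐ[ℚ] L) (X := K →+* L) (Y := F →+* L) cbar
    cbar_cbar cbar_ne (fun g x => rfl) f (fun g x => rfl) (fun φ => restrict_cbar hF φ) y₀ k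
    ((card_block F j h _).trans hdeg) (fun φ => u (jp.comp φ)) (fun x => hanti (jp.comp x)) ε
    (by rw [card_emb j h]; exact hε)
    (fun φ hφ => hout _ (fun h => hφ ((agree_iff F jp _ _).1 h))) hin c hc hrel

theorem single_block (hanti : ∀ τ, u (cbar τ) = -u τ) (hu : BlockCondition u) (j : L →+* ℂ)
    (h : ∀ ψ : K →+* ℂ, ∃ φ : K →+* L, j.comp φ = ψ) (jp : L →+* PadicAlgCl p) :
    Single (fun φ : K →+* L => u (jp.comp φ)) := by
  rcases hu with hu | hu | hu
  · exact single_orbitBlock hanti hu j h jp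
  · exact single_countBlock hanti hu j h jp
  · exact single_twoBlock hanti hu j h jp

end Pool.Agent.V8H71.OD
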