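import Mathlib
import Pool.Agent.V8H71.OD.Crit

/-!
# Maximal angle rank from the conditions at one embedding of a totally real subfield
-/

set_option autoImplicit false
set_option linter.unusedSectionVars false

namespace Pool.Agent.V8H71.OD

open NumberField Module IntermediateField Pool.Agent.H204R3.CM Pool.Agent.H977R3.WN
  Pool.Agent.H977R3.CM Pool.Agent.Y137.MV

variable {p : ℕ} [Fact p.Prime] {a : ℕ} {I : Type} [Fintype I]
  {K : I → Type} [∀ i, Field (K i)] [∀ i, NumberField (K i)] [∀ i, IsCMField (K i)]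
  {π : ∀ i, K i}

/-- The angle rank is maximal. -/
theorem angle_of_block (hind : PairwiseIndep K) {u : ∀ i, (K i →+* PadicAlgCl p) → ℤ}
    (hu : ∀ i, HasSlopeFunction a (π i) (u i)) (hcond : ∀ i, BlockCondition (u i)) :
    MaximalAngleRank (p ^ a) π := by
  choose κ hκ hsl using fun i => (hu i).slopes
  refine angle_of_free (fun i => (hu i).weil) κ hκ u hsl ?_
  intro L _ _ _ j hj jp
  have hanti : ∀ i (τ : K i →+* PadicAlgCl p), u i (cbar τ) = - u i τ := fun i τ =>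
    anti_of_weil (hu i).weil (hκ i) (hsl i) τ
  exact free_of_single j (fun i i' hii => hind i i' hii) (fun i φ => hanti i (jp.comp φ))
    (fun i => single_block (hanti i) (hcond i) j (hj i) jp)

/-- Numbers of maximal angle rank generate their fields. -/
theorem gen_of_angle {q : ℕ} (hang : MaximalAngleRank q π) (hπ0 : ∀ i, π i ≠ 0) (i : I) :
    ℚ⟮π i⟯ = ⊤ := by
  classical
  rw [Field.primitive_element_iff_algHom_eq_of_eval ℚ ℂ
    (fun x => IsAlgClosed.splits _) (π i) (RingHom.toRatAlgHom (Classical.arbitrary (K i →+* ℂ)))]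
  intro ψ hψ
  set φ₀ : K i →+* ℂ := Classical.arbitrary (K i →+* ℂ) with hφ₀
  by_contra hne
  have hne' : φ₀ ≠ (ψ : K i →+* ℂ) := by
    intro h
    apply hne
    ext x
    exact RingHom.congr_fun h x
  let n : (Σ i, (K i →+* ℂ)) → ℤ := fun y =>
    (if y = ⟨i, φ₀⟩ then 1 else 0) - (if y = ⟨i, (ψ : K i →+* ℂ)⟩ then 1 else 0)
  have h1 : ∏ y : Σ i, (K i →+* ℂ), (y.2 (π y.1)) ^ n y = (q : ℂ) ^ (0 : ℤ) := by
    have h2 : ∀ y : Σ i, (K i →+* ℂ), (y.2 (π y.1)) ^ n y =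
        (if y = ⟨i, φ₀⟩ then φ₀ (π i) else 1) *
          (if y = ⟨i, (ψ : K i →+* ℂ)⟩ then ((ψ : K i →+* ℂ) (π i))⁻¹ else 1) := by
      intro y
      have hy0 : y.2 (π y.1) ≠ 0 := (_root_.map_ne_zero _).2 (hπ0 _)
      simp only [n]
      rw [sub_eq_add_neg, zpow_add₀ hy0]
      congr 1
      · split_ifs with h
        · rw [zpow_one, h]
        · rw [zpow_zero]
      · split_ifs with h
        · rw [zpow_neg_one, h]
        · rw [neg_zero, zpow_zero]
    rw [Finset.prod_congr rfl (fun y _ => h2 y), Finset.prod_mul_distrib, Finset.prod_ite_eq',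
      Finset.prod_ite_eq', if_pos (Finset.mem_univ _), if_pos (Finset.mem_univ _), zpow_zero]
    have h3 : φ₀ (π i) = (ψ : K i →+* ℂ) (π i) := hψ
    rw [h3]
    exact mul_inv_cancel₀ ((_root_.map_ne_zero _).2 (hπ0 _))
  have h4 := hang 0 n h1 i φ₀
  have h5 : ComplexEmbedding.conjugate φ₀ ≠ φ₀ := by
    have h6 : ComplexEmbedding.conjugate φ₀ = cbar φ₀ := by
      ext x
      rw [ComplexEmbedding.conjugate_coe_eq]
      exact (IsCMField.complexEmbedding_complexConj (K i) φ₀ x).symm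
    rw [h6]
    exact cbar_ne φ₀
  have h7 : n ⟨i, φ₀⟩ = 1 := by
    have h9 : ¬ ((⟨i, φ₀⟩ : Σ i, (K i →+* ℂ)) = ⟨i, (ψ : K i →+* ℂ)⟩) := by
      intro h
      exact hne' (eq_of_heq (Sigma.mk.inj h).2)
    change (if (⟨i, φ₀⟩ : Σ i, (K i →+* ℂ)) = ⟨i, φ₀⟩ then (1 : ℤ) else 0) -
      (if (⟨i, φ₀⟩ : Σ i, (K i →+* ℂ)) = ⟨i, (ψ : K i →+* ℂ)⟩ then 1 else 0) = 1
    rw [if_pos rfl, if_neg h9, sub_zero]
  have h8 : n ⟨i, ComplexEmbedding.conjugate φ₀⟩ ≤ 0 := by
    have h9 : ¬ ((⟨i, ComplexEmbedding.conjugate φ₀⟩ : Σ i, (K i →+* ℂ)) = ⟨i, φ₀⟩) := by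
      intro h
      exact h5 (eq_of_heq (Sigma.mk.inj h).2)
    change (if (⟨i, ComplexEmbedding.conjugate φ₀⟩ : Σ i, (K i →+* ℂ)) = ⟨i, φ₀⟩
      then (1 : ℤ) else 0) - (if (⟨i, ComplexEmbedding.conjugate φ₀⟩ : Σ i, (K i →+* ℂ)) =
      ⟨i, (ψ : K i →+* ℂ)⟩ then 1 else 0) ≤ 0
    rw [if_neg h9, zero_sub]
    split_ifs <;> norm_num
  omega

end Pool.Agent.V8H71.OD
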