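import Mathlib

/-!
Group-theoretic core: fixed vectors of Sylow `l`-subgroups, `l` odd.
-/

set_option autoImplicit false

namespace Pool.Agent.V8H71.OD

open MulAction Finset

section Trans

/-- A subgroup of index prime to `l` has orbits of length divisible by `l ^ k` on a transitive set of
size divisible by `l ^ k`. -/
theorem dvd_orbit {H B : Type*} [Group H] [Finite H] [MulAction H B] [Finite B]
    (l : ℕ) [Fact l.Prime] [IsPretransitive H B] (k : ℕ) (hB : l ^ k ∣ Nat.card B)
    (P : Sylow l H) (x : B) : l ^ k ∣ (orbit (P : Subgroup H) x).ncard := by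
  classical
  have : Nonempty B := ⟨x⟩
  set S := stabilizer H x with hS
  have hSi : S.index = Nat.card B := by
    rw [hS, index_stabilizer, orbit_eq_univ, Set.ncard_univ]
  have h1 : (S ⊓ (P : Subgroup H)).index = S.relIndex P * (P : Subgroup H).index := by
    rw [← Subgroup.inf_relIndex_right, Subgroup.relIndex_mul_index inf_le_right]
  have h2 : (S ⊓ (P : Subgroup H)).index = (S ⊓ (P : Subgroup H)).relIndex S * S.index := by
    rw [Subgroup.relIndex_mul_index inf_le_left]
  have h3 : l ^ k ∣ S.relIndex P * (P : Subgroup H).index := by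
    rw [← h1, h2, hSi]; exact Dvd.dvd.mul_left hB _
  have hcop : Nat.Coprime (l ^ k) (P : Subgroup H).index := by
    apply Nat.Coprime.pow_left
    exact (Nat.Prime.coprime_iff_not_dvd Fact.out).2 (P.not_dvd_index)
  have h4 : l ^ k ∣ S.relIndex P := hcop.dvd_of_dvd_mul_right h3
  have h5 : S.relIndex P = (orbit (P : Subgroup H) x).ncard := by
    rw [← index_stabilizer, Subgroup.relIndex]
    congr 1
  rwa [h5] at h4

end Trans

section Core

variable {H B : Type*} [Group H] [Finite H] [MulAction H B] [Fintype B] [DecidableEq B]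

/-- If an odd function modulo `l` on a transitive set `B` of size `2 l ^ k` with an involution is
nonzero, and all its translates are orthogonal to the odd function `n`, then the sum of `n` over a
half `Φ` of `B`, stable under a Sylow `l`-subgroup, vanishes modulo `l`. -/
theorem core (l : ℕ) [Fact l.Prime] (hl : l ≠ 2) [IsPretransitive H B] (bar : B → B)
    (hbb : ∀ x, bar (bar x) = x) (hbH : ∀ (g : H) x, bar (g • x) = g • bar x)
    (k : ℕ) (hB : Fintype.card B = 2 * l ^ k)
    (P : Sylow l H) (Φ : Finset B) (hΦ : ∀ x, x ∈ Φ ↔ bar x ∉ Φ)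
    (hP : ∀ g ∈ P, ∀ x ∈ Φ, g • x ∈ Φ)
    (n : B → ZMod l) (hn : ∀ x, n (bar x) = - n x)
    (u : B → ZMod l) (hu : ∀ x, u (bar x) = - u x) (x₀ : B) (hu0 : u x₀ ≠ 0)
    (hort : ∀ h : H, ∑ x, u (h • x) * n x = 0) : ∑ x ∈ Φ, n x = 0 := by
  classical
  -- the sum over everything is twice the sum over `Φ`
  have hsplit : ∀ w : B → ZMod l, (∀ x, w (bar x) = w x) → ∑ x, w x = 2 * ∑ x ∈ Φ, w x := by
    intro w hw
    rw [← Finset.sum_add_sum_compl Φ w, two_mul]
    congr 1
    apply Finset.sum_nbij' (i := bar) (j := bar)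
    · intro x hx
      rw [mem_compl] at hx
      rw [hΦ, hbb]
      exact hx
    · intro x hx
      rw [mem_compl]
      rwa [← hΦ]
    · intro x _; exact hbb x
    · intro x _; exact hbb x
    · intro x _; exact (hw x).symm
  have hcardΦ : Φ.card = l ^ k := by
    have h1 : Φ.card = Φᶜ.card := by
      apply Finset.card_nbij' (i := bar) (j := bar)
      · intro x hx
        rw [mem_coe, mem_compl]
        rwa [← hΦ]
      · intro x hx
        rw [mem_coe, mem_compl] at hx
        rw [mem_coe, hΦ, hbb]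
        exact hx
      · intro x _; exact hbb x
      · intro x _; exact hbb x
    have h2 := Finset.card_add_card_compl Φ
    omega
  -- `P` is transitive on `Φ`
  have htr : ∀ x ∈ Φ, ∀ y ∈ Φ, ∃ g ∈ P, g • x = y := by
    intro x hx y hy
    have h1 : orbit (P : Subgroup H) x ⊆ (Φ : Set B) := by
      rintro _ ⟨g, rfl⟩
      exact hP g.1 g.2 x hx
    have h2 := dvd_orbit l k (by rw [Nat.card_eq_fintype_card, hB]; exact Dvd.intro_left _ rfl) P x
    have h3 : 0 < (orbit (P : Subgroup H) x).ncard := by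
      rw [Set.ncard_pos]; exact nonempty_orbit x
    have h4 := Nat.le_of_dvd h3 h2
    have h5 : orbit (P : Subgroup H) x = (Φ : Set B) := by
      apply Set.eq_of_subset_of_ncard_le h1
      rw [Set.ncard_coe_finset, hcardΦ]
      exact h4
    have h6 : y ∈ orbit (P : Subgroup H) x := by rw [h5]; exact hy
    obtain ⟨g, hg⟩ := h6
    exact ⟨g.1, g.2, hg⟩
  -- the space of odd functions all of whose translates under `P` are orthogonal to `n`
  let T : Submodule (ZMod l) (B → ZMod l) :=
    { carrier := {v | (∀ x, v (bar x) = - v x) ∧ ∀ h ∈ P, ∑ x, v (h • x) * n x = 0}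
      zero_mem' := by simp
      add_mem' := by
        rintro v w ⟨h1, h2⟩ ⟨h3, h4⟩
        refine ⟨fun x => ?_, fun h hh => ?_⟩
        · simp only [Pi.add_apply, h1, h3]; ring
        · simp only [Pi.add_apply, add_mul, Finset.sum_add_distrib, h2 h hh, h4 h hh, add_zero]
      smul_mem' := by
        rintro c v ⟨h1, h2⟩
        refine ⟨fun x => ?_, fun h hh => ?_⟩
        · simp only [Pi.smul_apply, smul_eq_mul, h1]; ring
        · have : ∑ x, (c • v) (h • x) * n x = c * ∑ x, v (h • x) * n x := by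
            rw [Finset.mul_sum]
            apply Finset.sum_congr rfl
            intro x _
            simp only [Pi.smul_apply, smul_eq_mul]; ring
          rw [this, h2 h hh, mul_zero] }
  have hT : ∀ v : B → ZMod l, v ∈ T ↔ ((∀ x, v (bar x) = - v x) ∧
      ∀ h ∈ P, ∑ x, v (h • x) * n x = 0) := fun v => Iff.rfl
  have huT : u ∈ T := ⟨hu, fun h _ => hort h⟩
  let act : MulAction (P : Subgroup H) T :=
    { smul := fun g v => ⟨fun x => v.1 ((g⁻¹ : (P : Subgroup H)).1 • x), by
        refine ⟨fun x => ?_, fun h hh => ?_⟩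
        · show v.1 ((g⁻¹ : (P : Subgroup H)).1 • bar x) = - v.1 ((g⁻¹ : (P : Subgroup H)).1 • x)
          rw [← hbH]; exact v.2.1 _
        · have h1 := v.2.2 ((g⁻¹ : (P : Subgroup H)).1 * h)
            ((P : Subgroup H).mul_mem (g⁻¹ : (P : Subgroup H)).2 hh)
          simpa only [mul_smul] using h1⟩
      one_smul := fun v => by
        apply Subtype.ext
        funext x
        show v.1 ((1⁻¹ : (P : Subgroup H)).1 • x) = v.1 x
        simp
      mul_smul := fun a b v => by
        apply Subtype.ext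
        funext x
        show v.1 (((a * b)⁻¹ : (P : Subgroup H)).1 • x) = v.1 ((b⁻¹ : (P : Subgroup H)).1 •
          ((a⁻¹ : (P : Subgroup H)).1 • x))
        rw [mul_inv_rev, ← mul_smul]
        rfl }
  have hsm : ∀ (g : (P : Subgroup H)) (v : T) (x : B), (g • v).1 x = v.1 (g⁻¹.1 • x) :=
    fun g v x => rfl
  have hfin : Finite T := inferInstance
  have hTne : Nontrivial T := by
    refine ⟨⟨⟨u, huT⟩, 0, ?_⟩⟩
    intro h
    apply hu0
    have h1 := congrArg (fun v : T => v.1 x₀) h
    simpa using h1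
  have hTcard : l ∣ Nat.card T := by
    have h1 : Nat.card T = l ^ Module.finrank (ZMod l) T := by
      rw [Module.natCard_eq_pow_finrank (K := ZMod l), Nat.card_zmod]
    rw [h1]
    apply dvd_pow_self
    exact (Module.finrank_pos (R := ZMod l) (M := T)).ne'
  have h0fix : (0 : T) ∈ fixedPoints (P : Subgroup H) T := by
    intro g
    apply Subtype.ext
    funext x
    rfl
  obtain ⟨b, hb, hb0⟩ := P.isPGroup'.exists_fixed_point_of_prime_dvd_card_of_fixed_point T hTcard
    h0fix
  -- `b` is constant on `Φ`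
  have hbinv : ∀ g ∈ P, ∀ x, b.1 (g • x) = b.1 x := by
    intro g hg x
    have h1 := hb ⟨g⁻¹, (P : Subgroup H).inv_mem hg⟩
    have h2 := congrArg (fun v : T => v.1 x) h1
    simp only [hsm] at h2
    simpa using h2
  have hΦne : Φ.Nonempty := by
    rw [← Finset.card_pos, hcardΦ]
    exact pow_pos (Nat.Prime.pos Fact.out) k
  obtain ⟨x₁, hx₁⟩ := hΦne
  have hbc : ∀ x ∈ Φ, b.1 x = b.1 x₁ := by
    intro x hx
    obtain ⟨g, hg, rfl⟩ := htr x₁ hx₁ x hx
    exact hbinv g hg x₁
  have hc0 : b.1 x₁ ≠ 0 := by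
    intro hc
    apply hb0
    symm
    apply Subtype.ext
    funext x
    show b.1 x = 0
    by_cases hx : x ∈ Φ
    · rw [hbc x hx, hc]
    · have h1 : bar x ∈ Φ := by rw [hΦ, hbb]; exact hx
      have h2 := b.2.1 (bar x)
      rw [hbb, hbc _ h1, hc, neg_zero] at h2
      exact h2
  have h1 := b.2.2 1 (P : Subgroup H).one_mem
  simp only [one_smul] at h1
  rw [hsplit (fun x => b.1 x * n x) (by
    intro x
    show b.1 (bar x) * n (bar x) = _
    rw [b.2.1, hn]; ring)] at h1
  have h2 : ∑ x ∈ Φ, b.1 x * n x = b.1 x₁ * ∑ x ∈ Φ, n x := by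
    rw [Finset.mul_sum]
    apply Finset.sum_congr rfl
    intro x hx
    rw [hbc x hx]
  rw [h2] at h1
  have h2ne : (2 : ZMod l) ≠ 0 := by
    intro h
    have h3 : ((2 : ℕ) : ZMod l) = 0 := by exact_mod_cast h
    rw [ZMod.natCast_eq_zero_iff] at h3
    exact hl ((Nat.prime_dvd_prime_iff_eq Fact.out Nat.prime_two).1 h3)
  rcases mul_eq_zero.1 h1 with h | h
  · exact absurd h h2ne
  · rcases mul_eq_zero.1 h with h | h
    · exact absurd h hc0
    · exact h

/-- For every Sylow `l`-subgroup there is a half of `B` stable under it. -/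
theorem exists_half (l : ℕ) [Fact l.Prime] (hl : l ≠ 2) [IsPretransitive H B] (bar : B → B)
    (hbb : ∀ x, bar (bar x) = x) (hbf : ∀ x, bar x ≠ x)
    (hbH : ∀ (g : H) x, bar (g • x) = g • bar x)
    (k : ℕ) (hB : Fintype.card B = 2 * l ^ k) (P : Sylow l H) :
    ∃ Φ : Finset B, (∀ x, x ∈ Φ ↔ bar x ∉ Φ) ∧ ∀ g ∈ P, ∀ x ∈ Φ, g • x ∈ Φ := by
  classical
  have hBpos : 0 < Fintype.card B := by
    rw [hB]; exact Nat.mul_pos two_pos (pow_pos (Nat.Prime.pos Fact.out) k)
  obtain ⟨x₀⟩ : Nonempty B := Fintype.card_pos_iff.1 hBpos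
  let Φ : Finset B := Set.toFinset (orbit (P : Subgroup H) x₀)
  have hmem : ∀ x, x ∈ Φ ↔ x ∈ orbit (P : Subgroup H) x₀ := fun x => Set.mem_toFinset
  have hstab : ∀ g ∈ P, ∀ x ∈ Φ, g • x ∈ Φ := by
    intro g hg x hx
    rw [hmem] at hx ⊢
    obtain ⟨h, rfl⟩ := hx
    exact ⟨⟨g, hg⟩ * h, by show ((⟨g, hg⟩ : (P : Subgroup H)) * h) • x₀ = g • (h • x₀)
                           rw [mul_smul]; rfl⟩
  -- `bar x₀` is not in the orbit: otherwise an element of `P` of odd order would move it back
  have hbar : ∀ x, x ∈ Φ → bar x ∉ Φ := by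
    intro x hx hbx
    rw [hmem] at hx hbx
    -- some `g ∈ P` maps `x` to `bar x`
    have h1 : orbit (P : Subgroup H) x = orbit (P : Subgroup H) x₀ := orbit_eq_iff.2 hx
    rw [← h1] at hbx
    obtain ⟨g, hg⟩ := hbx
    have hg' : g.1 • x = bar x := hg
    have hpow : ∀ m : ℕ, g.1 ^ (2 * m + 1) • x = bar x := by
      intro m
      induction m with
      | zero => simpa using hg'
      | succ m ih =>
        have e1 : g.1 ^ (2 * (m + 1) + 1) = g.1 * (g.1 * g.1 ^ (2 * m + 1)) := by
          rw [← pow_succ', ← pow_succ']; congr 1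
        rw [e1, mul_smul, mul_smul, ih, ← hbH, hg', hbb, hg']
    obtain ⟨r, hr⟩ := P.isPGroup' g
    have hr' : g.1 ^ (l ^ r) = 1 := by
      have := congrArg (fun z : (P : Subgroup H) => z.1) hr
      simpa using this
    have hodd : Odd (l ^ r) := by
      apply Odd.pow
      exact (Nat.Prime.odd_of_ne_two Fact.out hl)
    obtain ⟨m, hm⟩ := hodd
    have h2 := hpow m
    rw [← hm, hr', one_smul] at h2
    exact hbf x h2.symm
  have hdvd := dvd_orbit l k (by rw [Nat.card_eq_fintype_card, hB]; exact Dvd.intro_left _ rfl) P x₀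
  have hpos : 0 < (orbit (P : Subgroup H) x₀).ncard := by
    rw [Set.ncard_pos]; exact nonempty_orbit x₀
  have hle : l ^ k ≤ Φ.card := by
    have h3 : Φ.card = (orbit (P : Subgroup H) x₀).ncard := (Set.ncard_eq_toFinset_card' _).symm
    rw [h3]
    exact Nat.le_of_dvd hpos hdvd
  have hinj : Function.Injective bar := fun a b h => by rw [← hbb a, h, hbb]
  refine ⟨Φ, fun x => ⟨hbar x, fun hx => ?_⟩, hstab⟩
  by_contra hx'
  -- `Φ`, `bar Φ` and `x` are too many
  have hdis : Disjoint Φ (Φ.image bar) := by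
    rw [Finset.disjoint_left]
    intro y hy hy'
    obtain ⟨w, hw, rfl⟩ := Finset.mem_image.1 hy'
    exact hbar w hw hy
  have hxn : x ∉ Φ ∪ Φ.image bar := by
    rw [Finset.mem_union, not_or]
    refine ⟨hx', ?_⟩
    intro h
    obtain ⟨w, hw, hwx⟩ := Finset.mem_image.1 h
    apply hx
    rw [← hwx, hbb]
    exact hw
  have hlt : (Φ ∪ Φ.image bar).card < Fintype.card B := by
    apply Finset.card_lt_univ_of_notMem hxn
  rw [Finset.card_union_of_disjoint hdis, Finset.card_image_of_injective _ hinj, hB] at hlt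
  omega

end Core

end Pool.Agent.V8H71.OD
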